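import Pool.Agent.Helper28.HD.Forward
import Pool.Agent.Helper18.HD.Converse
import Pool.Agent.Helper42.HD.UQW
import Pool.Agent.Helper5.HD.Cover
import Pool.Agent.Helper52.HD.Den
import Pool.Agent.Helper78.HD.BeckFiala
import Pool.Agent.Helper96.HD.Game
import Pool.Agent.Helper15.HD.Wcol

set_option autoImplicit false

/-!
# Hereditary discrepancy of definable set systems in nowhere dense classes

A monotone class of finite graphs is nowhere dense if and only if, for every partitioned
first-order formula `φ(x; y)` and every `ε > 0`, the set systems `𝒮^φ(G)` defined by `φ` in the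
graphs `G` of the class satisfy `herdisc(𝒮^φ(G)) = O(|⋃ 𝒮^φ(G)|^ε)`.

The definitions are those of `Pool.Agent.Helper28.HD.FinalDefs`:
`GraphClass` (a class of finite graphs), `IsMonotone`, `subdivK r t` (the `r`-subdivision of
`K_t`), `IsNowhereDense`, `Sat G φ a b` (`G ⊨ φ(a, b)`), `setSystem G φ` (`𝒮^φ(G)`), `disc`,
`herdisc` and `HasSmallHerdisc` (the discrepancy condition of the problem).
-/

namespace Pool.Agent.Results.MP_364488_co.SmallHerdiscIffNowhereDense

open Pool.Agent.Helper28.HD

/-- Q1: a monotone class `C` of finite graphs is nowhere dense if and only if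
`herdisc(𝒮^φ(G)) = O(|⋃ 𝒮^φ(G)|^ε)` on `C` for every partitioned first-order formula `φ(x; y)`
and every `ε > 0`. -/
theorem result (C : GraphClass) (hC : IsMonotone C) : IsNowhereDense C ↔ HasSmallHerdisc C := by
  have hden : ∀ t, DenBound t := Helper52.HD.den
  have huqw : ∀ t, UQW t := fun t => uqw t (hden t)
  have hcov : ∀ t, CoverBound t := fun t =>
    Pool.Agent.Helper5.HD.cover t (Pool.Agent.Helper15.HD.wcol t (hden t)) (huqw t)
  have hgame : ∀ t, GameBound t := fun t => Pool.Agent.Helper96.HD.game t (huqw t)
  have hBF : BeckFiala := by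
    intro α ι X I 𝒜 D h
    exact Pool.Agent.Helper78.HD.beck_fiala X I 𝒜 D h
  exact ⟨forward_of hBF hgame hcov C, Pool.Agent.Helper18.HD.converse C hC⟩

end Pool.Agent.Results.MP_364488_co.SmallHerdiscIffNowhereDense
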